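import Mathlib

/-!
# The Beta integral at natural numbers
-/

set_option autoImplicit false

open MeasureTheory

namespace Pool.Agent.H821.AM

theorem beta_step (a b : ℕ) :
    ((b : ℝ) + 1) * ∫ s in (0 : ℝ)..1, (1 - s) ^ (a + 1) * s ^ b =
      ((a : ℝ) + 1) * ∫ s in (0 : ℝ)..1, (1 - s) ^ a * s ^ (b + 1) := by
  have h : ∀ s ∈ Set.uIcc (0 : ℝ) 1, HasDerivAt (fun s : ℝ => (1 - s) ^ (a + 1) * s ^ (b + 1))
      (((b : ℝ) + 1) * ((1 - s) ^ (a + 1) * s ^ b) - ((a : ℝ) + 1) * ((1 - s) ^ a * s ^ (b + 1))) s := by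
    intro s _
    have h1 : HasDerivAt (fun s : ℝ => (1 - s) ^ (a + 1)) (((a : ℝ) + 1) * (1 - s) ^ a * (-1)) s := by
      have h0 : HasDerivAt (fun s : ℝ => 1 - s) (-1) s := by
        simpa using (hasDerivAt_id s).const_sub (1 : ℝ)
      have := h0.fun_pow (a + 1)
      simpa using this
    have h2 : HasDerivAt (fun s : ℝ => s ^ (b + 1)) (((b : ℝ) + 1) * s ^ b) s := by
      have := (hasDerivAt_pow (b + 1) s)
      simpa using this
    have h3 := h1.fun_mul h2
    refine h3.congr_deriv ?_
    ring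
  have hint := intervalIntegral.integral_eq_sub_of_hasDerivAt h
    (by apply Continuous.intervalIntegrable; fun_prop)
  rw [intervalIntegral.integral_sub (by apply Continuous.intervalIntegrable; fun_prop)
    (by apply Continuous.intervalIntegrable; fun_prop),
    intervalIntegral.integral_const_mul, intervalIntegral.integral_const_mul] at hint
  simp only [sub_self, ne_eq, Nat.add_eq_zero_iff, one_ne_zero, and_false, not_false_eq_true,
    zero_pow, one_pow, mul_one, sub_zero, mul_zero] at hint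
  linarith

theorem beta (a b : ℕ) : ∫ s in (0 : ℝ)..1, (1 - s) ^ a * s ^ b =
    (a.factorial * b.factorial : ℝ) / (a + b + 1).factorial := by
  induction a generalizing b with
  | zero =>
    simp only [pow_zero, one_mul, integral_pow, one_pow, ne_eq, Nat.add_eq_zero_iff, one_ne_zero,
      and_false, not_false_eq_true, zero_pow, sub_zero, Nat.factorial_zero, Nat.cast_one, zero_add]
    rw [Nat.factorial_succ]
    have h3 : (b.factorial : ℝ) ≠ 0 := by exact_mod_cast b.factorial_ne_zero
    push_cast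
    field_simp
  | succ a ih =>
    have h := beta_step a b
    rw [ih (b + 1)] at h
    have hb : ((b : ℝ) + 1) ≠ 0 := by positivity
    have h4 : ∫ s in (0 : ℝ)..1, (1 - s) ^ (a + 1) * s ^ b =
        (((a : ℝ) + 1) * (a.factorial * (b + 1).factorial / (a + (b + 1) + 1).factorial)) / (b + 1) := by
      field_simp
      field_simp at h
      linarith
    rw [h4, Nat.factorial_succ b, Nat.factorial_succ a, show a + (b + 1) + 1 = a + 1 + b + 1 by ring]
    have h3 : ((a + 1 + b + 1).factorial : ℝ) ≠ 0 := by exact_mod_cast Nat.factorial_ne_zero _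
    push_cast
    field_simp

theorem beta_choose {n j : ℕ} (hj : j ≤ n) : ∫ s in (0 : ℝ)..1, (1 - s) ^ (n - j) * s ^ j =
    1 / ((n + 1 : ℝ) * n.choose j) := by
  rw [beta, Nat.sub_add_cancel hj, Nat.choose_eq_factorial_div_factorial hj,
    Nat.cast_div (Nat.factorial_mul_factorial_dvd_factorial hj)
      (by exact_mod_cast (Nat.mul_ne_zero (Nat.factorial_ne_zero _) (Nat.factorial_ne_zero _))),
    Nat.factorial_succ]
  have h1 : (n.factorial : ℝ) ≠ 0 := by exact_mod_cast n.factorial_ne_zero
  have h2 : (j.factorial : ℝ) ≠ 0 := by exact_mod_cast j.factorial_ne_zero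
  have h3 : ((n - j).factorial : ℝ) ≠ 0 := by exact_mod_cast (n - j).factorial_ne_zero
  push_cast
  field_simp

/-- `∫_0^1 ∑ C(n,j)² (1-s)^(n-j) s^j ds = 2ⁿ/(n+1)` -/
theorem beta_sum (n : ℕ) : (∫ s in (0 : ℝ)..1,
    ∑ j ∈ Finset.range (n + 1), (n.choose j : ℝ) ^ 2 * (1 - s) ^ (n - j) * s ^ j) =
      (2 : ℝ) ^ n / (n + 1) := by
  rw [intervalIntegral.integral_finsetSum]
  · have h : ∀ j ∈ Finset.range (n + 1),
        ∫ s in (0 : ℝ)..1, (n.choose j : ℝ) ^ 2 * (1 - s) ^ (n - j) * s ^ j =
          (n.choose j : ℝ) / (n + 1) := by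
      intro j hj
      have hj' : j ≤ n := Nat.lt_succ_iff.1 (Finset.mem_range.1 hj)
      have hc : (n.choose j : ℝ) ≠ 0 := by exact_mod_cast (Nat.choose_pos hj').ne'
      simp_rw [mul_assoc]
      rw [intervalIntegral.integral_const_mul, beta_choose hj']
      field_simp
    rw [Finset.sum_congr rfl h, ← Finset.sum_div]
    congr 1
    exact_mod_cast Nat.sum_range_choose n
  · intro j _
    apply Continuous.intervalIntegrable
    fun_prop

end Pool.Agent.H821.AM
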