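import Mathlib
import Pool.Graph.R_seed8.H912R3.Mahler

/-!
# An asymmetric form of Mahler's inequality

For a convex body `K` of `ℝⁿ` the body `B = conv (K × {1} ∪ (-K) × {-1})` of `ℝⁿ⁺¹` is symmetric; its
section at height `t` is `(1+t)/2 K - (1-t)/2 K`, and the volume of its polar body is
`2ⁿ⁺¹/(n+1)` times the volume of the polar body of `K - K`.  Mahler's inequality for `B` gives
`2ⁿ/n! ≤ |(K - K)°| ∫_0^1 |(1 - s) K - s K| ds`.
-/

set_option autoImplicit false

open MeasureTheory Set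
open scoped ENNReal Pointwise

namespace Pool.Agent.H821.AM

variable {n : ℕ}

/-- the polar body of the difference body -/
def dpol (K : Set (Fin n → ℝ)) : Set (Fin n → ℝ) := {u | ∀ x ∈ K, ∀ y ∈ K, (x - y) ⬝ᵥ u ≤ 1}

/-- the symmetric body `conv (K × {1} ∪ (-K) × {-1})` -/
def bd (K : Set (Fin n → ℝ)) : Set (Fin (n + 1) → ℝ) :=
  {z | z 0 ∈ Icc (-1 : ℝ) 1 ∧ Fin.tail z ∈ ((1 + z 0) / 2) • K - ((1 - z 0) / 2) • K}

theorem mem_bd {K : Set (Fin n → ℝ)} {z : Fin (n + 1) → ℝ} : z ∈ bd K ↔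
    z 0 ∈ Icc (-1 : ℝ) 1 ∧ ∃ x ∈ K, ∃ y ∈ K,
      ((1 + z 0) / 2) • x - ((1 - z 0) / 2) • y = Fin.tail z := by
  unfold bd
  simp only [mem_ofPred_eq, Set.mem_sub, Set.mem_smul_set]
  constructor
  · rintro ⟨h, a, ⟨x, hx, rfl⟩, b, ⟨y, hy, rfl⟩, e⟩
    exact ⟨h, x, hx, y, hy, e⟩
  · rintro ⟨h, x, hx, y, hy, e⟩
    exact ⟨h, _, ⟨x, hx, rfl⟩, _, ⟨y, hy, rfl⟩, e⟩

/-- parametrisation of `bd K` -/
noncomputable def par (p : ℝ × (Fin n → ℝ) × (Fin n → ℝ)) : Fin (n + 1) → ℝ :=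
  Fin.cons p.1 (((1 + p.1) / 2) • p.2.1 - ((1 - p.1) / 2) • p.2.2)

theorem continuous_par : Continuous (par (n := n)) := by
  unfold par
  refine continuous_pi fun i => ?_
  refine Fin.cases ?_ (fun j => ?_) i
  · simpa using continuous_fst
  · simp only [Fin.cons_succ, Pi.sub_apply, Pi.smul_apply, smul_eq_mul]
    fun_prop

theorem bd_eq_image (K : Set (Fin n → ℝ)) : bd K = par '' (Icc (-1 : ℝ) 1 ×ˢ K ×ˢ K) := by
  ext z
  rw [mem_bd]
  constructor
  · rintro ⟨h, x, hx, y, hy, e⟩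
    refine ⟨(z 0, x, y), ⟨h, hx, hy⟩, ?_⟩
    unfold par
    dsimp only
    rw [e]
    exact Fin.cons_self_tail z
  · rintro ⟨⟨t, x, y⟩, ⟨h, hx, hy⟩, rfl⟩
    refine ⟨by simpa [par] using h, x, hx, y, hy, ?_⟩
    simp [par, Fin.tail_cons]

theorem bd_sbody {K : Set (Fin n → ℝ)} (hK : IsCompact K) (hc : Convex ℝ K)
    (hi : (interior K).Nonempty) : H712MA.GB.SBody (bd K) where
  comp := by
    rw [bd_eq_image]
    exact (isCompact_Icc.prod (hK.prod hK)).image continuous_par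
  conv := by
    intro z hz w hw a b ha hb hab
    rw [mem_bd] at hz hw ⊢
    obtain ⟨⟨hz1, hz2⟩, x, hx, y, hy, e⟩ := hz
    obtain ⟨⟨hw1, hw2⟩, x', hx', y', hy', e'⟩ := hw
    have h0 : (a • z + b • w) 0 = a * z 0 + b * w 0 := by simp
    have key : ∀ p q : ℝ, 0 ≤ p → 0 ≤ q → ∀ u ∈ K, ∀ v ∈ K, ∃ c ∈ K, (p + q) • c = p • u + q • v := by
      intro p q hp hq u hu v hv
      have h := hc.add_smul hp hq
      have h1 : p • u + q • v ∈ (p + q) • K := by
        rw [h]
        exact Set.add_mem_add (Set.smul_mem_smul_set hu) (Set.smul_mem_smul_set hv)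
      obtain ⟨c, hcK, hce⟩ := h1
      exact ⟨c, hcK, hce⟩
    obtain ⟨X, hX, hXe⟩ := key (a * ((1 + z 0) / 2)) (b * ((1 + w 0) / 2))
      (mul_nonneg ha (by linarith)) (mul_nonneg hb (by linarith)) x hx x' hx'
    obtain ⟨Y, hY, hYe⟩ := key (a * ((1 - z 0) / 2)) (b * ((1 - w 0) / 2))
      (mul_nonneg ha (by linarith)) (mul_nonneg hb (by linarith)) y hy y' hy'
    refine ⟨?_, X, hX, Y, hY, ?_⟩
    · rw [h0]
      constructor
      · nlinarith
      · nlinarith
    · have e1 : (1 + (a • z + b • w) 0) / 2 = a * ((1 + z 0) / 2) + b * ((1 + w 0) / 2) := by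
        rw [h0]
        linear_combination (-1 / 2) * hab
      have e2 : (1 - (a • z + b • w) 0) / 2 = a * ((1 - z 0) / 2) + b * ((1 - w 0) / 2) := by
        rw [h0]
        linear_combination (-1 / 2) * hab
      rw [e1, e2, hXe, hYe]
      have e3 : Fin.tail (a • z + b • w) = a • Fin.tail z + b • Fin.tail w := by
        ext i
        simp [Fin.tail]
      rw [e3, ← e, ← e']
      simp only [smul_sub, smul_smul]
      abel
  int := by
    obtain ⟨x0, hx0⟩ := hi
    obtain ⟨ε, hε, hball⟩ := Metric.mem_nhds_iff.1 (mem_interior_iff_mem_nhds.1 hx0)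
    have hx0K : x0 ∈ K := interior_subset hx0
    have hU : IsOpen {z : Fin (n + 1) → ℝ | |z 0| < 1 / 2 ∧ ‖Fin.tail z - z 0 • x0‖ < ε / 4} := by
      apply IsOpen.and
      · exact isOpen_lt (by fun_prop) continuous_const
      · refine isOpen_lt ?_ continuous_const
        refine (Continuous.sub ?_ (by fun_prop)).norm
        exact continuous_pi fun i => by simpa [Fin.tail] using continuous_apply (Fin.succ i)
    refine ⟨0, ?_⟩
    rw [mem_interior]
    refine ⟨_, ?_, hU, ?_⟩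
    · rintro z ⟨hz, hz'⟩
      rw [abs_lt] at hz
      rw [mem_bd]
      have h2 : (0 : ℝ) < 1 + z 0 := by linarith [hz.1]
      refine ⟨⟨by linarith [hz.1], by linarith [hz.2]⟩,
        x0 + (2 / (1 + z 0)) • (Fin.tail z - z 0 • x0), hball ?_, x0, hx0K, ?_⟩
      · rw [mem_ball_iff_norm, add_sub_cancel_left, norm_smul, Real.norm_of_nonneg (by positivity)]
        have h3 : 2 / (1 + z 0) ≤ 4 := by
          rw [div_le_iff₀ h2]
          linarith [hz.1]
        calc 2 / (1 + z 0) * ‖Fin.tail z - z 0 • x0‖ ≤ 4 * ‖Fin.tail z - z 0 • x0‖ := by gcongr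
          _ < 4 * (ε / 4) := by gcongr
          _ = ε := by ring
      · rw [smul_add, smul_smul]
        have e1 : (1 + z 0) / 2 * (2 / (1 + z 0)) = 1 := by field_simp
        rw [e1, one_smul]
        ext i
        simp only [Pi.add_apply, Pi.sub_apply, Pi.smul_apply, smul_eq_mul]
        ring
    · simp only [mem_ofPred_eq, Pi.zero_apply, abs_zero, zero_smul, sub_zero]
      refine ⟨by norm_num, ?_⟩
      have : Fin.tail (0 : Fin (n + 1) → ℝ) = 0 := by ext i; simp [Fin.tail]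
      rw [this, norm_zero]
      positivity
  symm := by
    intro z hz
    rw [mem_bd] at hz ⊢
    obtain ⟨⟨h1, h2⟩, x, hx, y, hy, e⟩ := hz
    refine ⟨⟨by simpa using h2, by simp only [Pi.neg_apply]; linarith⟩, y, hy, x, hx, ?_⟩
    have e3 : Fin.tail (-z) = -Fin.tail z := by ext i; simp [Fin.tail]
    rw [e3, ← e, neg_sub]
    simp only [Pi.neg_apply, sub_neg_eq_add, ← sub_eq_add_neg]

end Pool.Agent.H821.AM
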