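import Pool.Agent.H821.AM.Pol
import Pool.Agent.H821.AM.Beta
import Pool.Graph.R_seed8.TH421.GO.Body
import Pool.Graph.R_seed8.TH650.GB.Core

/-!
# The sharp inequality `|K| |(K - K)°| ≥ (n+1)/n!` and Makai's theorem on the lattice width
-/

set_option autoImplicit false

open MeasureTheory Set
open scoped ENNReal Pointwise

namespace Pool.Agent.H821.AM

variable {n : ℕ}

theorem meanVol_le {K : Set (Fin n → ℝ)} (hK : IsCompact K) (hc : Convex ℝ K)
    (hi : (interior K).Nonempty) :
    meanVol K ≤ ENNReal.ofReal ((2 : ℝ) ^ n / (n + 1)) * volume K := by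
  have hcore : Pool.Agent.TH421.GO.HCore := fun n m v h => Pool.Agent.TH650.GB.core h
  have h1 : meanVol K ≤ ∫⁻ s in Icc (0 : ℝ) 1, ENNReal.ofReal
      (∑ j ∈ Finset.range (n + 1), (n.choose j : ℝ) ^ 2 * (1 - s) ^ (n - j) * s ^ j) * volume K := by
    unfold meanVol
    refine setLIntegral_mono' measurableSet_Icc fun s hs => ?_
    exact Pool.Agent.TH421.GO.upper_pi hcore n K hK hc hi (1 - s) s (by linarith [hs.2]) hs.1
  refine h1.trans (le_of_eq ?_)
  rw [lintegral_mul_const _ (by fun_prop)]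
  congr 1
  rw [← ofReal_integral_eq_lintegral_ofReal]
  · rw [integral_Icc_eq_integral_Ioc, ← intervalIntegral.integral_of_le (by norm_num), beta_sum]
  · exact (Continuous.integrableOn_Icc (by fun_prop))
  · refine (ae_restrict_iff' measurableSet_Icc).2 (Filter.Eventually.of_forall fun s hs => ?_)
    refine Finset.sum_nonneg fun j _ => ?_
    have h0 : (0 : ℝ) ≤ 1 - s := by linarith [hs.2]
    have h0' : (0 : ℝ) ≤ s := hs.1
    positivity

/-- **The sharp inequality for a body and the polar body of its difference body.** -/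
theorem diff {K : Set (Fin n → ℝ)} (hK : IsCompact K) (hc : Convex ℝ K)
    (hi : (interior K).Nonempty) :
    ENNReal.ofReal (((n : ℝ) + 1) / n.factorial) ≤ volume K * volume (dpol K) := by
  have h1 := asym hK hc hi
  have h2 := h1.trans (mul_le_mul_right (meanVol_le hK hc hi) (volume (dpol K)))
  have hpos : (0 : ℝ) < 2 ^ n / (n + 1) := by positivity
  have e1 : (2 : ℝ) ^ n / n.factorial = (2 ^ n / (n + 1)) * ((n + 1) / n.factorial) := by
    have h3 : (n.factorial : ℝ) ≠ 0 := by exact_mod_cast n.factorial_ne_zero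
    field_simp
  have e2 : volume (dpol K) * (ENNReal.ofReal ((2 : ℝ) ^ n / (n + 1)) * volume K) =
      ENNReal.ofReal (2 ^ n / (n + 1)) * (volume K * volume (dpol K)) := by ring
  rw [e1, e2, ENNReal.ofReal_mul hpos.le] at h2
  have h0 : ENNReal.ofReal (2 ^ n / ((n : ℝ) + 1)) ≠ 0 := by
    rw [Ne, ENNReal.ofReal_eq_zero, not_le]
    exact hpos
  exact (ENNReal.mul_le_mul_iff_right h0 ENNReal.ofReal_ne_top).1 h2

theorem dpol_symm {K : Set (Fin n → ℝ)} {u : Fin n → ℝ} (hu : u ∈ dpol K) : -u ∈ dpol K := by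
  intro x hx y hy
  have := hu y hy x hx
  rw [dotProduct_neg, ← neg_dotProduct, neg_sub]
  exact this

theorem dpol_convex (K : Set (Fin n → ℝ)) : Convex ℝ (dpol K) := by
  intro u hu v hv a b ha hb hab x hx y hy
  have h1 := hu x hx y hy
  have h2 := hv x hx y hy
  rw [dotProduct_add, dotProduct_smul, dotProduct_smul, smul_eq_mul, smul_eq_mul]
  nlinarith

/-- Minkowski's theorem for the polar body of the difference body -/
theorem dpol_mink {K : Set (Fin n → ℝ)} {r : ℝ} (hr : 0 < r)
    (h : ∀ m : Fin n → ℤ, m ≠ 0 → ∃ x ∈ K, ∃ y ∈ K, r < (x - y) ⬝ᵥ (fun i => (m i : ℝ))) :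
    ENNReal.ofReal (r ^ n) * volume (dpol K) ≤ 2 ^ n := by
  by_contra hlt
  rw [not_le] at hlt
  set b := Pi.basisFun ℝ (Fin n) with hb
  have fund := ZSpan.isAddFundamentalDomain b (volume : Measure (Fin n → ℝ))
  have hvol : volume (ZSpan.fundamentalDomain b) = 1 := by
    rw [hb, ZSpan.fundamentalDomain_pi_basisFun, volume_pi, Measure.pi_pi]
    simp
  have e1 : volume (r • dpol K) = ENNReal.ofReal (r ^ n) * volume (dpol K) := by
    rw [Measure.addHaar_smul, Module.finrank_fintype_fun_eq_card, Fintype.card_fin,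
      abs_of_nonneg (pow_nonneg hr.le n)]
  have h1 : volume (ZSpan.fundamentalDomain b) * 2 ^ Module.finrank ℝ (Fin n → ℝ) <
      volume (r • dpol K) := by
    rw [hvol, e1, one_mul, Module.finrank_fintype_fun_eq_card, Fintype.card_fin]
    exact hlt
  haveI : Countable (Submodule.span ℤ (Set.range b)).toAddSubgroup := by
    change Countable (Submodule.span ℤ (Set.range b))
    infer_instance
  obtain ⟨⟨x, hx⟩, hx0, hxm⟩ := exists_ne_zero_mem_lattice_of_measure_mul_two_pow_lt_measure
    (L := (Submodule.span ℤ (Set.range b)).toAddSubgroup) fund (s := r • dpol K) (by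
      rintro _ ⟨u, hu, rfl⟩
      exact ⟨-u, dpol_symm hu, by simp⟩) ((dpol_convex K).smul r) h1
  have hmem : x ∈ Submodule.span ℤ (Set.range b) := hx
  rw [Module.Basis.mem_span_iff_repr_mem] at hmem
  choose m hm using hmem
  have hxm' : x = fun i => (m i : ℝ) := by
    ext i
    have := hm i
    simpa [hb] using this.symm
  have hm0 : m ≠ 0 := by
    rintro rfl
    apply hx0
    ext i
    simp [hxm']
  obtain ⟨p, hp, q, hq, hpq⟩ := h m hm0
  obtain ⟨u, hu, hue⟩ := hxm
  have h2 := hu p hp q hq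
  have h3 : (fun i => (m i : ℝ)) = r • u := by
    rw [← hxm']
    exact hue.symm
  rw [h3, dotProduct_smul, smul_eq_mul] at hpq
  nlinarith

/-- **Makai's conjecture**: a convex body of lattice width at least `w` has volume at least
`(n+1) wⁿ / (2ⁿ n!)`. -/
theorem makai {K : Set (Fin n → ℝ)} (hK : IsCompact K) (hc : Convex ℝ K)
    (hi : (interior K).Nonempty) {w : ℝ} (hw : 0 < w)
    (h : ∀ m : Fin n → ℤ, m ≠ 0 → ∃ x ∈ K, ∃ y ∈ K, w ≤ (x - y) ⬝ᵥ (fun i => (m i : ℝ))) :
    ENNReal.ofReal (((n : ℝ) + 1) * w ^ n / (2 ^ n * n.factorial)) ≤ volume K := by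
  have h1 : ENNReal.ofReal (w ^ n) * volume (dpol K) ≤ 2 ^ n := by
    have h2 : ∀ k : ℕ, ENNReal.ofReal ((w * (1 - 1 / ((k : ℝ) + 2))) ^ n) * volume (dpol K) ≤ 2 ^ n := by
      intro k
      have hk : (0 : ℝ) < 1 - 1 / ((k : ℝ) + 2) := by
        rw [sub_pos, div_lt_one (by positivity)]
        linarith [(Nat.cast_nonneg k : (0 : ℝ) ≤ k)]
      refine dpol_mink (mul_pos hw hk) fun m hm => ?_
      obtain ⟨x, hx, y, hy, hxy⟩ := h m hm
      refine ⟨x, hx, y, hy, lt_of_lt_of_le ?_ hxy⟩
      have : (0 : ℝ) < 1 / ((k : ℝ) + 2) := by positivity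
      nlinarith
    have hdf : volume (dpol K) ≠ ⊤ := by
      intro htop
      have := h2 0
      rw [htop, ENNReal.mul_top] at this
      · exact absurd this (by simp [ENNReal.pow_eq_top_iff])
      · rw [Ne, ENNReal.ofReal_eq_zero, not_le]
        norm_num
        positivity
    have hlim : Filter.Tendsto (fun k : ℕ => ENNReal.ofReal ((w * (1 - 1 / ((k : ℝ) + 2))) ^ n) *
        volume (dpol K)) Filter.atTop (nhds (ENNReal.ofReal (w ^ n) * volume (dpol K))) := by
      refine ENNReal.Tendsto.mul_const ?_ (Or.inr hdf)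
      refine ENNReal.tendsto_ofReal ?_
      have h3 : Filter.Tendsto (fun k : ℕ => 1 / ((k : ℝ) + 2)) Filter.atTop (nhds 0) := by
        have h4 := tendsto_one_div_add_atTop_nhds_zero_nat (𝕜 := ℝ)
        have h5 := (Filter.tendsto_add_atTop_iff_nat (f := fun k : ℕ => 1 / ((k : ℝ) + 1)) 1).2 h4
        refine h5.congr fun k => ?_
        push_cast
        ring
      have h6 := ((h3.const_sub 1).const_mul w).pow n
      simpa using h6
    exact le_of_tendsto' hlim h2
  have h3 := diff hK hc hi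
  have h4 : ENNReal.ofReal (w ^ n) * ENNReal.ofReal (((n : ℝ) + 1) / n.factorial) ≤
      volume K * 2 ^ n := by
    calc _ ≤ ENNReal.ofReal (w ^ n) * (volume K * volume (dpol K)) := mul_le_mul_right h3 _
      _ = volume K * (ENNReal.ofReal (w ^ n) * volume (dpol K)) := by ring
      _ ≤ _ := mul_le_mul_right h1 _
  rw [← ENNReal.ofReal_mul (by positivity)] at h4
  have e : ((n : ℝ) + 1) * w ^ n / (2 ^ n * n.factorial) =
      (w ^ n * (((n : ℝ) + 1) / n.factorial)) / 2 ^ n := by
    have h3 : (n.factorial : ℝ) ≠ 0 := by exact_mod_cast n.factorial_ne_zero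
    field_simp
  rw [e, ENNReal.ofReal_div_of_pos (by positivity)]
  apply ENNReal.div_le_of_le_mul
  refine h4.trans (le_of_eq ?_)
  rw [ENNReal.ofReal_pow (by norm_num)]
  norm_num

end Pool.Agent.H821.AM
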