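import Pool.Agent.H821.AM.Vol

/-!
# The polar body of the double cone
-/

set_option autoImplicit false

open MeasureTheory Set
open scoped ENNReal Pointwise

namespace Pool.Agent.H821.AM

variable {n : ℕ}

/-- support function -/
noncomputable def hp (K : Set (Fin n → ℝ)) (u : Fin n → ℝ) : ℝ := sSup ((fun x => x ⬝ᵥ u) '' K)

theorem cont_dot (u : Fin n → ℝ) : Continuous fun x : Fin n → ℝ => x ⬝ᵥ u := by
  unfold dotProduct
  fun_prop

theorem le_hp {K : Set (Fin n → ℝ)} (hK : IsCompact K) {x : Fin n → ℝ} (hx : x ∈ K) (u : Fin n → ℝ) :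
    x ⬝ᵥ u ≤ hp K u :=
  le_csSup (hK.image (cont_dot u)).bddAbove ⟨x, hx, rfl⟩

theorem exists_hp {K : Set (Fin n → ℝ)} (hK : IsCompact K) (hne : K.Nonempty) (u : Fin n → ℝ) :
    ∃ x ∈ K, x ⬝ᵥ u = hp K u := by
  obtain ⟨x, hx, h1⟩ := (hK.image (cont_dot u)).sSup_mem (hne.image _)
  exact ⟨x, hx, h1⟩

theorem hp_le {K : Set (Fin n → ℝ)} (hK : IsCompact K) (hne : K.Nonempty) {u : Fin n → ℝ} {c : ℝ}
    (h : ∀ x ∈ K, x ⬝ᵥ u ≤ c) : hp K u ≤ c := by
  obtain ⟨x, hx, e⟩ := exists_hp hK hne u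
  rw [← e]
  exact h x hx

/-- width function -/
noncomputable def wd (K : Set (Fin n → ℝ)) (u : Fin n → ℝ) : ℝ := hp K u + hp K (-u)

theorem wd_le_iff {K : Set (Fin n → ℝ)} (hK : IsCompact K) (hne : K.Nonempty) {u : Fin n → ℝ} {c : ℝ} :
    wd K u ≤ c ↔ ∀ x ∈ K, ∀ y ∈ K, (x - y) ⬝ᵥ u ≤ c := by
  constructor
  · intro h x hx y hy
    have h1 := le_hp hK hx u
    have h2 := le_hp hK hy (-u)
    rw [dotProduct_neg] at h2
    rw [sub_dotProduct]
    unfold wd at h
    linarith
  · intro h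
    obtain ⟨x, hx, e⟩ := exists_hp hK hne u
    obtain ⟨y, hy, e'⟩ := exists_hp hK hne (-u)
    have := h x hx y hy
    rw [sub_dotProduct] at this
    rw [dotProduct_neg] at e'
    unfold wd
    linarith

theorem wd_nonneg {K : Set (Fin n → ℝ)} (hK : IsCompact K) (hne : K.Nonempty) (u : Fin n → ℝ) :
    0 ≤ wd K u := by
  obtain ⟨x, hx⟩ := hne
  have h1 := le_hp hK hx u
  have h2 := le_hp hK hx (-u)
  rw [dotProduct_neg] at h2
  unfold wd
  linarith

/-- sublevel sets of the width function -/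
theorem wd_sub {K : Set (Fin n → ℝ)} (hK : IsCompact K) (hne : K.Nonempty) {r : ℝ} (hr : 0 < r) :
    {u | wd K u ≤ r} = r • dpol K := by
  ext u
  rw [mem_ofPred_eq, wd_le_iff hK hne, mem_smul_set_iff_inv_smul_mem₀ hr.ne']
  unfold dpol
  simp only [mem_ofPred_eq, dotProduct_smul, smul_eq_mul]
  refine forall₂_congr fun x _ => forall₂_congr fun y _ => ?_
  rw [inv_mul_le_iff₀ hr, mul_one]

theorem isClosed_wd {K : Set (Fin n → ℝ)} (hK : IsCompact K) (hne : K.Nonempty) :
    IsClosed {p : (Fin n → ℝ) × ℝ | wd K p.1 ≤ p.2 ∧ p.2 ≤ 2} := by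
  have : {p : (Fin n → ℝ) × ℝ | wd K p.1 ≤ p.2 ∧ p.2 ≤ 2} =
      (⋂ x ∈ K, ⋂ y ∈ K, {p : (Fin n → ℝ) × ℝ | (x - y) ⬝ᵥ p.1 ≤ p.2}) ∩ {p | p.2 ≤ 2} := by
    ext p
    simp only [mem_ofPred_eq, mem_inter_iff, mem_iInter, wd_le_iff hK hne]
  rw [this]
  refine IsClosed.inter ?_ (isClosed_le (by fun_prop) continuous_const)
  refine isClosed_biInter fun x _ => isClosed_biInter fun y _ => isClosed_le ?_ (by fun_prop)
  unfold dotProduct
  fun_prop

/-- `∫ (2 - w)_+ = 2ⁿ⁺¹/(n+1) |(K - K)°|` -/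
theorem lint_wd {K : Set (Fin n → ℝ)} (hK : IsCompact K) (hne : K.Nonempty) :
    ∫⁻ u, ENNReal.ofReal (2 - wd K u) =
      ENNReal.ofReal ((2 : ℝ) ^ (n + 1) / (n + 1)) * volume (dpol K) := by
  set S : Set ((Fin n → ℝ) × ℝ) := {p | wd K p.1 ≤ p.2 ∧ p.2 ≤ 2} with hS
  have hSm : MeasurableSet S := (isClosed_wd hK hne).measurableSet
  have h1 : ∫⁻ u, ENNReal.ofReal (2 - wd K u) = (volume.prod volume) S := by
    rw [Measure.prod_apply hSm]
    refine lintegral_congr fun u => ?_
    have : Prod.mk u ⁻¹' S = Icc (wd K u) 2 := by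
      ext r
      simp [hS]
    rw [this, Real.volume_Icc]
  rw [h1, Measure.prod_apply_symm hSm]
  have h2 : ∀ r : ℝ, volume ((fun u => (u, r)) ⁻¹' S) =
      (Icc (0 : ℝ) 2).indicator (fun r => volume {u | wd K u ≤ r}) r := by
    intro r
    by_cases hr : r ∈ Icc (0 : ℝ) 2
    · rw [indicator_of_mem hr]
      congr 1
      ext u
      simp [hS, hr.2]
    · rw [indicator_of_notMem hr]
      have : (fun u => (u, r)) ⁻¹' S = ∅ := by
        ext u
        simp only [hS, mem_preimage, mem_ofPred_eq, mem_empty_iff_false, iff_false, not_and, not_le]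
        intro h
        by_contra h3
        exact hr ⟨(wd_nonneg hK hne u).trans h, not_lt.1 h3⟩
      rw [this, measure_empty]
  simp_rw [h2]
  rw [lintegral_indicator measurableSet_Icc, ← restrict_Ioc_eq_restrict_Icc]
  have h3 : ∀ r ∈ Ioc (0 : ℝ) 2, volume {u | wd K u ≤ r} =
      ENNReal.ofReal (r ^ n) * volume (dpol K) := by
    intro r hr
    rw [wd_sub hK hne hr.1, Measure.addHaar_smul, Module.finrank_fintype_fun_eq_card, Fintype.card_fin,
      abs_of_nonneg (pow_nonneg hr.1.le n)]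
  rw [setLIntegral_congr_fun measurableSet_Ioc h3, lintegral_mul_const _ (by fun_prop)]
  congr 1
  rw [← ofReal_integral_eq_lintegral_ofReal]
  · rw [← intervalIntegral.integral_of_le (by norm_num), integral_pow]
    simp
  · exact (intervalIntegrable_iff_integrableOn_Ioc_of_le (by norm_num)).1 (by simp)
  · exact (ae_restrict_iff' measurableSet_Ioc).2 (Filter.Eventually.of_forall fun r hr =>
      pow_nonneg hr.1.le n)

theorem vol_plr_bd {K : Set (Fin n → ℝ)} (hK : IsCompact K) (hne : K.Nonempty) :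
    volume (H712MA.GB.plr (bd K)) ≤
      ENNReal.ofReal ((2 : ℝ) ^ (n + 1) / (n + 1)) * volume (dpol K) := by
  have hmeas : MeasurableSet (H712MA.GB.plr (bd K)) := by
    have : H712MA.GB.plr (bd K) = ⋂ x ∈ bd K, {y | x ⬝ᵥ y ≤ 1} := by
      ext y
      simp [H712MA.GB.plr]
    rw [this]
    refine IsClosed.measurableSet (isClosed_biInter fun x _ => isClosed_le ?_ continuous_const)
    unfold dotProduct
    fun_prop
  have hmp := volume_preserving_piFinSuccAbove (fun _ : Fin (n + 1) => ℝ) 0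
  set e := MeasurableEquiv.piFinSuccAbove (fun _ : Fin (n + 1) => ℝ) 0 with he
  have h1 : volume (H712MA.GB.plr (bd K)) = volume (e.symm ⁻¹' (H712MA.GB.plr (bd K))) :=
    ((hmp.symm e).measure_preimage hmeas.nullMeasurableSet).symm
  have hm2 : MeasurableSet (e.symm ⁻¹' (H712MA.GB.plr (bd K))) := e.symm.measurable hmeas
  rw [h1, Measure.volume_eq_prod, Measure.prod_apply_symm hm2, ← lint_wd hK hne]
  refine lintegral_mono fun u => ?_
  have h2 : (fun s : ℝ => (s, u)) ⁻¹' (e.symm ⁻¹' (H712MA.GB.plr (bd K))) ⊆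
      Icc (hp K (-u) - 1) (1 - hp K u) := by
    intro s hs
    simp only [mem_preimage, he, MeasurableEquiv.piFinSuccAbove_symm_apply] at hs
    have hz : ∀ z ∈ bd K, z 0 * s + Fin.tail z ⬝ᵥ u ≤ 1 := by
      intro z hz
      have := hs z hz
      rw [dotProduct, Fin.sum_univ_succ] at this
      simpa [dotProduct, Fin.tail] using this
    constructor
    · have h3 : hp K (-u) ≤ 1 + s := by
        refine hp_le hK hne fun y hy => ?_
        have := hz (Fin.cons (-1) (-y)) (by
          rw [mem_bd]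
          refine ⟨by simp, y, hy, y, hy, ?_⟩
          simp)
        simp only [Fin.cons_zero, Fin.tail_cons, neg_dotProduct] at this
        rw [dotProduct_neg]
        linarith
      linarith
    · have h3 : hp K u ≤ 1 - s := by
        refine hp_le hK hne fun y hy => ?_
        have := hz (Fin.cons 1 y) (by
          rw [mem_bd]
          refine ⟨by simp, y, hy, y, hy, ?_⟩
          simp)
        simp only [Fin.cons_zero, Fin.tail_cons] at this
        linarith
      linarith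
  refine (measure_mono h2).trans ?_
  rw [Real.volume_Icc]
  apply ENNReal.ofReal_le_ofReal
  unfold wd
  linarith

/-- **The asymmetric Mahler inequality.** -/
theorem asym {K : Set (Fin n → ℝ)} (hK : IsCompact K) (hc : Convex ℝ K) (hi : (interior K).Nonempty) :
    ENNReal.ofReal ((2 : ℝ) ^ n / n.factorial) ≤ volume (dpol K) * meanVol K := by
  have hne : K.Nonempty := hi.mono interior_subset
  have h1 := Pool.Agent.H912R3.mahler (bd_sbody hK hc hi)
  rw [vol_bd hK hc hi] at h1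
  have h2 := h1.trans (mul_le_mul_right (vol_plr_bd hK hne) (2 * meanVol K))
  have hpos : (0 : ℝ) < 2 ^ (n + 2) / (n + 1) := by positivity
  have e1 : (4 : ℝ) ^ (n + 1) / (n + 1).factorial =
      (2 ^ (n + 2) / (n + 1)) * (2 ^ n / n.factorial) := by
    have : ((n + 1).factorial : ℝ) = (n + 1) * n.factorial := by
      rw [Nat.factorial_succ]
      push_cast
      ring
    rw [this, show (4 : ℝ) = 2 * 2 by norm_num, mul_pow]
    have h3 : (n.factorial : ℝ) ≠ 0 := by exact_mod_cast n.factorial_ne_zero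
    field_simp
    ring
  have e2 : (2 : ℝ≥0∞) * meanVol K * (ENNReal.ofReal ((2 : ℝ) ^ (n + 1) / (n + 1)) * volume (dpol K)) =
      ENNReal.ofReal (2 ^ (n + 2) / (n + 1)) * (volume (dpol K) * meanVol K) := by
    have : ENNReal.ofReal (2 ^ (n + 2) / ((n : ℝ) + 1)) = 2 * ENNReal.ofReal ((2 : ℝ) ^ (n + 1) / (n + 1)) := by
      rw [show (2 : ℝ≥0∞) = ENNReal.ofReal 2 by norm_num, ← ENNReal.ofReal_mul (by norm_num)]
      congr 1
      ring
    rw [this]
    ring
  rw [e1, e2, ENNReal.ofReal_mul hpos.le] at h2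
  have h0 : ENNReal.ofReal (2 ^ (n + 2) / ((n : ℝ) + 1)) ≠ 0 := by
    rw [Ne, ENNReal.ofReal_eq_zero, not_le]
    exact hpos
  exact (ENNReal.mul_le_mul_iff_right h0 ENNReal.ofReal_ne_top).1 h2

end Pool.Agent.H821.AM
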