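import Pool.Agent.H821.AM.Makai
import Pool.Graph.R_seed8.H629R2.HT.Simp

/-!
# Symmetric bodies, and equality for simplices and cubes
-/

set_option autoImplicit false

open MeasureTheory Set
open scoped ENNReal Pointwise

namespace Pool.Agent.H821.AM

variable {n : ℕ}

theorem meanVol_symm {K : Set (Fin n → ℝ)} (hc : Convex ℝ K) (hs : ∀ x ∈ K, -x ∈ K) :
    meanVol K = volume K := by
  have hneg : -K = K := by
    ext x
    constructor
    · intro hx
      simpa using hs _ hx
    · intro hx
      exact hs x hx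
  unfold meanVol
  have h : ∀ s ∈ Icc (0 : ℝ) 1, volume ((1 - s) • K - s • K) = volume K := by
    intro s hs'
    have : (1 - s) • K - s • K = K := by
      rw [sub_eq_add_neg, ← Set.smul_set_neg, hneg, ← hc.add_smul (by linarith [hs'.2]) hs'.1]
      simp
    rw [this]
  rw [setLIntegral_congr_fun measurableSet_Icc h]
  simp

theorem dpol_of_symm {K : Set (Fin n → ℝ)} (hs : ∀ x ∈ K, -x ∈ K) :
    dpol K = (2⁻¹ : ℝ) • H712MA.GB.plr K := by
  ext u
  rw [mem_smul_set_iff_inv_smul_mem₀ (by norm_num), inv_inv]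
  unfold dpol H712MA.GB.plr
  simp only [mem_ofPred_eq, dotProduct_smul, smul_eq_mul]
  constructor
  · intro h x hx
    have := h x hx (-x) (hs x hx)
    rw [sub_neg_eq_add, add_dotProduct] at this
    linarith
  · intro h x hx y hy
    have h1 := h x hx
    have h2 := h (-y) (hs y hy)
    rw [neg_dotProduct] at h2
    rw [sub_dotProduct]
    linarith

theorem vol_dpol_symm {K : Set (Fin n → ℝ)} (hs : ∀ x ∈ K, -x ∈ K) :
    volume (H712MA.GB.plr K) = 2 ^ n * volume (dpol K) := by
  rw [dpol_of_symm hs, Measure.addHaar_smul, Module.finrank_fintype_fun_eq_card, Fintype.card_fin,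
    ← mul_assoc]
  have : (2 : ℝ≥0∞) ^ n * ENNReal.ofReal |(2⁻¹ : ℝ) ^ n| = 1 := by
    rw [abs_of_nonneg (by positivity), show (2 : ℝ≥0∞) ^ n = ENNReal.ofReal (2 ^ n) by
      rw [ENNReal.ofReal_pow (by norm_num)]; norm_num, ← ENNReal.ofReal_mul (by positivity),
      ← mul_pow]
    norm_num
  rw [this, one_mul]

/-- the standard simplex -/
def spx (n : ℕ) : Set (Fin n → ℝ) := {x | (∀ i, 0 ≤ x i) ∧ ∑ i, x i ≤ 1}

theorem spx_closed (n : ℕ) : IsClosed (spx n) := by
  have : spx n = (⋂ i, {x : Fin n → ℝ | 0 ≤ x i}) ∩ {x | ∑ i, x i ≤ 1} := by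
    ext x
    simp [spx]
  rw [this]
  exact (isClosed_iInter fun i => isClosed_le continuous_const (continuous_apply i)).inter
    (isClosed_le (by fun_prop) continuous_const)

theorem spx_le_one {x : Fin n → ℝ} (hx : x ∈ spx n) (i : Fin n) : x i ≤ 1 :=
  (Finset.single_le_sum (fun j _ => hx.1 j) (Finset.mem_univ i)).trans hx.2

theorem spx_compact (n : ℕ) : IsCompact (spx n) := by
  refine Metric.isCompact_of_isClosed_isBounded (spx_closed n) ?_
  refine (Metric.isBounded_Icc (0 : Fin n → ℝ) 1).subset fun x hx => ⟨fun i => hx.1 i, fun i => ?_⟩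
  exact spx_le_one hx i

theorem spx_convex (n : ℕ) : Convex ℝ (spx n) := by
  intro x hx y hy a b ha hb hab
  refine ⟨fun i => ?_, ?_⟩
  · have h1 := hx.1 i
    have h2 := hy.1 i
    simp only [Pi.add_apply, Pi.smul_apply, smul_eq_mul]
    positivity
  · simp only [Pi.add_apply, Pi.smul_apply, smul_eq_mul, Finset.sum_add_distrib, ← Finset.mul_sum]
    nlinarith [hx.2, hy.2]

theorem spx_int (n : ℕ) : (interior (spx n)).Nonempty := by
  have hU : IsOpen {x : Fin n → ℝ | (∀ i, 0 < x i) ∧ ∑ i, x i < 1} := by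
    have : {x : Fin n → ℝ | (∀ i, 0 < x i) ∧ ∑ i, x i < 1} =
        (⋂ i, {x : Fin n → ℝ | 0 < x i}) ∩ {x | ∑ i, x i < 1} := by
      ext x
      simp
    rw [this]
    exact (isOpen_iInter_of_finite fun i => isOpen_lt continuous_const (continuous_apply i)).inter
      (isOpen_lt (by fun_prop) continuous_const)
  refine ⟨fun _ => 1 / ((n : ℝ) + 1), ?_⟩
  rw [mem_interior]
  refine ⟨_, fun x hx => ⟨fun i => (hx.1 i).le, hx.2.le⟩, hU, ?_⟩
  simp only [mem_ofPred_eq, Finset.sum_const, Finset.card_univ, Fintype.card_fin, nsmul_eq_mul]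
  refine ⟨fun _ => by positivity, ?_⟩
  rw [mul_one_div, div_lt_one (by positivity)]
  linarith

theorem vol_spx (n : ℕ) : volume (spx n) ≤ ENNReal.ofReal (1 / n.factorial) := by
  have h : ∀ k : ℕ, volume (spx n) ≤
      ENNReal.ofReal ((1 + ((n : ℝ) + 1) * (1 / ((k : ℝ) + 1))) ^ n / n.factorial) := by
    intro k
    set δ : ℝ := 1 / ((k : ℝ) + 1) with hδ
    have hδ0 : 0 < δ := by positivity
    rw [← Pool.Agent.H629R2.HT.vol_simplex_aux n (1 + ((n : ℝ) + 1) * δ) (by positivity)]
    rw [← measure_preimage_add volume (fun _ : Fin n => δ)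
      {c : Fin n → ℝ | (∀ i, 0 < c i) ∧ ∑ i, c i < 1 + ((n : ℝ) + 1) * δ}]
    refine measure_mono fun x hx => ?_
    simp only [mem_preimage, mem_ofPred_eq, Pi.add_apply, Finset.sum_add_distrib, Finset.sum_const,
      Finset.card_univ, Fintype.card_fin, nsmul_eq_mul]
    exact ⟨fun i => by linarith [hx.1 i], by linarith [hx.2]⟩
  have hlim : Filter.Tendsto (fun k : ℕ => ENNReal.ofReal
      ((1 + ((n : ℝ) + 1) * (1 / ((k : ℝ) + 1))) ^ n / n.factorial)) Filter.atTop
      (nhds (ENNReal.ofReal (1 / n.factorial))) := by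
    refine ENNReal.tendsto_ofReal ?_
    have h4 := tendsto_one_div_add_atTop_nhds_zero_nat (𝕜 := ℝ)
    have h5 := (((h4.const_mul ((n : ℝ) + 1)).const_add 1).pow n).div_const (n.factorial : ℝ)
    simpa using h5
  exact ge_of_tendsto' hlim h

/-- the pieces of the polar body of the difference body of the simplex -/
def piece (k : Fin n) : Set (Fin n → ℝ) := {u | u k ∈ Icc (-1 : ℝ) 0 ∧ ∀ i, u i ∈ Icc (u k) (u k + 1)}

theorem vol_piece (k : Fin n) : volume (piece k) ≤ 1 := by
  rcases n with _ | m
  · exact k.elim0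
  have hcl : IsClosed (piece k) := by
    have : piece k = {u : Fin (m + 1) → ℝ | -1 ≤ u k} ∩ {u | u k ≤ 0} ∩
        (⋂ i, {u : Fin (m + 1) → ℝ | u k ≤ u i} ∩ {u | u i ≤ u k + 1}) := by
      ext u
      simp [piece, and_assoc]
    rw [this]
    refine ((isClosed_le continuous_const (continuous_apply k)).inter
      (isClosed_le (continuous_apply k) continuous_const)).inter (isClosed_iInter fun i => ?_)
    exact (isClosed_le (continuous_apply k) (continuous_apply i)).inter
      (isClosed_le (continuous_apply i) (by fun_prop))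
  have hmp := volume_preserving_piFinSuccAbove (fun _ : Fin (m + 1) => ℝ) k
  set e := MeasurableEquiv.piFinSuccAbove (fun _ : Fin (m + 1) => ℝ) k with he
  have h1 : volume (piece k) = volume (e.symm ⁻¹' (piece k)) :=
    ((hmp.symm e).measure_preimage hcl.measurableSet.nullMeasurableSet).symm
  have hm2 : MeasurableSet (e.symm ⁻¹' (piece k)) := e.symm.measurable hcl.measurableSet
  rw [h1, Measure.volume_eq_prod, Measure.prod_apply hm2]
  have h2 : ∀ t : ℝ, volume (Prod.mk t ⁻¹' (e.symm ⁻¹' (piece k))) ≤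
      (Icc (-1 : ℝ) 0).indicator (fun _ => 1) t := by
    intro t
    by_cases ht : t ∈ Icc (-1 : ℝ) 0
    · rw [indicator_of_mem ht]
      have : Prod.mk t ⁻¹' (e.symm ⁻¹' (piece k)) ⊆ Set.pi univ fun _ : Fin m => Icc t (t + 1) := by
        intro y hy
        simp only [mem_preimage, he, MeasurableEquiv.piFinSuccAbove_symm_apply, piece,
          mem_ofPred_eq] at hy
        intro j _
        have := hy.2 (k.succAbove j)
        simpa using this
      refine (measure_mono this).trans ?_
      rw [volume_pi, Measure.pi_pi]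
      simp
    · rw [indicator_of_notMem ht]
      have : Prod.mk t ⁻¹' (e.symm ⁻¹' (piece k)) = ∅ := by
        ext y
        simp only [mem_preimage, he, MeasurableEquiv.piFinSuccAbove_symm_apply, piece,
          mem_ofPred_eq, mem_empty_iff_false, iff_false, not_and]
        intro h
        exact absurd (by simpa using h) ht
      rw [this, measure_empty]
  refine (lintegral_mono h2).trans ?_
  rw [lintegral_indicator measurableSet_Icc]
  simp

theorem vol_dpol_spx (n : ℕ) : volume (dpol (spx n)) ≤ n + 1 := by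
  have hsub : dpol (spx n) ⊆ Icc (0 : Fin n → ℝ) 1 ∪ ⋃ k : Fin n, piece k := by
    intro u hu
    have h0 : (0 : Fin n → ℝ) ∈ spx n := ⟨fun i => le_rfl, by simp⟩
    have he : ∀ i, (Pi.single i (1 : ℝ) : Fin n → ℝ) ∈ spx n := by
      intro i
      refine ⟨fun j => ?_, by simp⟩
      by_cases h : j = i
      · subst h
        simp
      · simp [h]
    have h1 : ∀ i, u i ≤ 1 := by
      intro i
      have := hu _ (he i) 0 h0
      simpa using this
    have h2 : ∀ i, -1 ≤ u i := by
      intro i
      have := hu 0 h0 _ (he i)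
      rw [zero_sub, neg_dotProduct, single_one_dotProduct] at this
      linarith
    have h3 : ∀ i j, u i ≤ u j + 1 := by
      intro i j
      have := hu _ (he i) _ (he j)
      rw [sub_dotProduct, single_one_dotProduct, single_one_dotProduct] at this
      linarith
    by_cases hpos : ∀ i, 0 ≤ u i
    · exact Or.inl ⟨hpos, h1⟩
    · push Not at hpos
      obtain ⟨i0, hi0⟩ := hpos
      haveI : Nonempty (Fin n) := ⟨i0⟩
      obtain ⟨k, hk⟩ := Finite.exists_min u
      refine Or.inr (mem_iUnion.2 ⟨k, ⟨h2 k, (hk i0).trans hi0.le⟩, fun i => ⟨hk i, h3 i k⟩⟩)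
  calc volume (dpol (spx n)) ≤ volume (Icc (0 : Fin n → ℝ) 1 ∪ ⋃ k : Fin n, piece k) :=
        measure_mono hsub
    _ ≤ volume (Icc (0 : Fin n → ℝ) 1) + volume (⋃ k : Fin n, piece k) := measure_union_le _ _
    _ ≤ 1 + ∑ k : Fin n, volume (piece k) := by
        gcongr
        · rw [Real.volume_Icc_pi]
          simp
        · exact measure_iUnion_fintype_le _ _
    _ ≤ 1 + ∑ k : Fin n, (1 : ℝ≥0∞) := by
        gcongr with k
        exact vol_piece k
    _ = n + 1 := by
        simp [add_comm]

/-- equality for simplices -/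
theorem spx_eq (n : ℕ) : volume (spx n) * volume (dpol (spx n)) =
      ENNReal.ofReal (((n : ℝ) + 1) / n.factorial) ∧
    volume (dpol (spx n)) * meanVol (spx n) = ENNReal.ofReal ((2 : ℝ) ^ n / n.factorial) := by
  have hK := spx_compact n
  have hc := spx_convex n
  have hi := spx_int n
  have h3 : (n.factorial : ℝ) ≠ 0 := by exact_mod_cast n.factorial_ne_zero
  have hn1 : ((n : ℝ≥0∞) + 1) = ENNReal.ofReal ((n : ℝ) + 1) := by
    rw [ENNReal.ofReal_add (by positivity) (by norm_num)]
    simp
  constructor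
  · refine le_antisymm ?_ (diff hK hc hi)
    calc volume (spx n) * volume (dpol (spx n)) ≤ ENNReal.ofReal (1 / n.factorial) * (n + 1) :=
          mul_le_mul' (vol_spx n) (vol_dpol_spx n)
      _ = _ := by
          rw [hn1, ← ENNReal.ofReal_mul (by positivity)]
          congr 1
          ring
  · refine le_antisymm ?_ (asym hK hc hi)
    calc volume (dpol (spx n)) * meanVol (spx n) ≤
          (n + 1) * (ENNReal.ofReal ((2 : ℝ) ^ n / (n + 1)) * ENNReal.ofReal (1 / n.factorial)) :=
          mul_le_mul' (vol_dpol_spx n) ((meanVol_le hK hc hi).trans (mul_le_mul_right (vol_spx n) _))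
      _ = _ := by
          rw [hn1, ← ENNReal.ofReal_mul (by positivity), ← ENNReal.ofReal_mul (by positivity)]
          congr 1
          field_simp

end Pool.Agent.H821.AM
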