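import Pool.Agent.H821.AM.Cone

/-!
# Volumes of the double cone and of its polar body
-/

set_option autoImplicit false

open MeasureTheory Set
open scoped ENNReal Pointwise

namespace Pool.Agent.H821.AM

variable {n : ℕ}

/-- the mean volume `∫_0^1 |(1 - s) K - s K| ds` -/
noncomputable def meanVol (K : Set (Fin n → ℝ)) : ℝ≥0∞ :=
  ∫⁻ s in Icc (0 : ℝ) 1, volume ((1 - s) • K - s • K)

theorem vol_bd {K : Set (Fin n → ℝ)} (hK : IsCompact K) (hc : Convex ℝ K)
    (hi : (interior K).Nonempty) : volume (bd K) = 2 * meanVol K := by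
  have hmeas : MeasurableSet (bd K) := (bd_sbody hK hc hi).comp.measurableSet
  have hmp := volume_preserving_piFinSuccAbove (fun _ : Fin (n + 1) => ℝ) 0
  set e := MeasurableEquiv.piFinSuccAbove (fun _ : Fin (n + 1) => ℝ) 0 with he
  have h1 : volume (bd K) = volume (e.symm ⁻¹' (bd K)) :=
    ((hmp.symm e).measure_preimage hmeas.nullMeasurableSet).symm
  have h2 : e.symm ⁻¹' (bd K) = {p : ℝ × (Fin n → ℝ) | p.1 ∈ Icc (-1 : ℝ) 1 ∧
      p.2 ∈ ((1 + p.1) / 2) • K - ((1 - p.1) / 2) • K} := by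
    ext p
    simp only [he, mem_preimage, bd, mem_ofPred_eq, MeasurableEquiv.piFinSuccAbove_symm_apply]
    have e0 : (Fin.insertNthEquiv (fun _ : Fin (n + 1) => ℝ) 0 p) 0 = p.1 := by simp
    have e1 : Fin.tail (Fin.insertNthEquiv (fun _ : Fin (n + 1) => ℝ) 0 p) = p.2 := by
      ext i
      simp [Fin.tail]
    rw [e0, e1]
  have hm2 : MeasurableSet (e.symm ⁻¹' (bd K)) := e.symm.measurable hmeas
  rw [h1, Measure.volume_eq_prod, Measure.prod_apply hm2]
  have h3 : ∀ t : ℝ, volume (Prod.mk t ⁻¹' (e.symm ⁻¹' (bd K))) =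
      (Icc (-1 : ℝ) 1).indicator (fun t => volume (((1 + t) / 2) • K - ((1 - t) / 2) • K)) t := by
    intro t
    rw [h2]
    by_cases ht : t ∈ Icc (-1 : ℝ) 1
    · rw [indicator_of_mem ht]
      congr 1
      ext x
      simp [ht.1, ht.2]
    · rw [indicator_of_notMem ht]
      have : Prod.mk t ⁻¹' {p : ℝ × (Fin n → ℝ) | p.1 ∈ Icc (-1 : ℝ) 1 ∧
          p.2 ∈ ((1 + p.1) / 2) • K - ((1 - p.1) / 2) • K} = ∅ := by
        ext x
        simp only [mem_preimage, mem_ofPred_eq, mem_empty_iff_false, iff_false, not_and]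
        exact fun h => absurd h ht
      rw [this, measure_empty]
  have hmm : Measurable fun t : ℝ => (Icc (-1 : ℝ) 1).indicator
      (fun t => volume (((1 + t) / 2) • K - ((1 - t) / 2) • K)) t := by
    have := measurable_measure_prodMk_left (ν := (volume : Measure (Fin n → ℝ))) hm2
    simpa only [h3] using this
  simp_rw [h3]
  -- substitution `t = 1 - 2 s`
  have hsub : ∀ g : ℝ → ℝ≥0∞, Measurable g → ∫⁻ t, g t = 2 * ∫⁻ s, g (1 - 2 * s) := by
    intro g hg
    have a1 : ∫⁻ s, g (1 - 2 * s) = ∫⁻ s, (fun r => g (1 + r)) ((-2) * s) := by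
      congr 1
      ext s
      congr 1
      ring
    have a2 : ∫⁻ s, (fun r => g (1 + r)) ((-2 : ℝ) * s) =
        ∫⁻ r, g (1 + r) ∂(Measure.map (fun s : ℝ => (-2 : ℝ) * s) volume) := by
      rw [lintegral_map (f := fun r => g (1 + r)) (by fun_prop) (by fun_prop)]
    rw [a1, a2, Real.map_volume_mul_left (by norm_num : (-2 : ℝ) ≠ 0), lintegral_smul_measure]
    rw [lintegral_add_left_eq_self g 1]
    have a3 : ENNReal.ofReal |(-2 : ℝ)⁻¹| = 2⁻¹ := by
      rw [show |(-2 : ℝ)⁻¹| = (2 : ℝ)⁻¹ by norm_num [abs_of_pos], ENNReal.ofReal_inv_of_pos (by norm_num)]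
      norm_num
    rw [a3, smul_eq_mul, ← mul_assoc, ENNReal.mul_inv_cancel (by norm_num) (by norm_num), one_mul]
  rw [hsub _ hmm]
  unfold meanVol
  rw [← lintegral_indicator measurableSet_Icc]
  congr 1
  refine lintegral_congr fun s => ?_
  by_cases hs : s ∈ Icc (0 : ℝ) 1
  · rw [indicator_of_mem hs, indicator_of_mem]
    · congr 2
      · congr 1; ring
      · congr 1; ring
    · exact ⟨by linarith [hs.2], by linarith [hs.1]⟩
  · rw [indicator_of_notMem hs, indicator_of_notMem]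
    intro h
    exact hs ⟨by linarith [h.2], by linarith [h.1]⟩

end Pool.Agent.H821.AM
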